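import Pool.Agent.Helper69.QG.St1

/-! # Project QD, part C, geometric half, module DIH: dihedral inequalities -/

open Complex Set Metric
open scoped ComplexConjugate

namespace Pool.Agent.Helper74.QG

open Pool.Agent.Helper69.QG

private theorem step (s t : Fin 4) (m : ℕ) (z : DD) :
    Xm (act (altp cs s t (m + 1)) z : DD) = rf t (Xm (act (altp cs t s m) z : DD)) := by
  have h : altp cs s t (m + 1) = gen t * altp cs t s m := rfl
  rw [h, map_mul, Equiv.Perm.mul_apply, act_gen, Xm_Rp]

private theorem base (s t : Fin 4) (z : DD) : Xm (act (altp cs s t 0) z : DD) = Xm z := by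
  have h : altp cs s t 0 = 1 := rfl
  rw [h, map_one, Equiv.Perm.one_apply]

private theorem kp_gt : 1 < kp := by
  have h1 := sg_pos; have h2 := kp_pos; have h3 := kp_sq'
  nlinarith

/-- The infinite case. -/
private theorem inf_case (z : DD) (m : ℕ) : ∀ s t : Fin 4, lf (ev s) (ev t) = -kp →
    0 < lf (Xm z) (ev s) → 0 < lf (Xm z) (ev t) → ∀ x y : ℝ, 0 < x → 0 ≤ y → y ≤ x →
      0 < x * lf (Xm (act (altp cs s t m) z : DD)) (ev s) +
        y * lf (Xm (act (altp cs s t m) z : DD)) (ev t) := by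
  induction m with
  | zero =>
    intro s t _ hs ht x y hx hy _
    rw [base]
    have h1 : 0 < x * lf (Xm z) (ev s) := mul_pos hx hs
    have h2 : 0 ≤ y * lf (Xm z) (ev t) := mul_nonneg hy ht.le
    linarith
  | succ m ih =>
    intro s t hst hs ht x y hx hy hxy
    have hts : lf (ev t) (ev s) = -kp := by rw [lf_comm]; exact hst
    have hk := kp_gt
    have h1 : x ≤ 2 * kp * x - y := by nlinarith
    have h2 := ih t s hts ht hs (2 * kp * x - y) x (by linarith) hx.le h1
    rw [step, lf_rf, lf_rf, hts, lf_ev_self]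
    have e : x * (lf (Xm (act (altp cs t s m) z : DD)) (ev s) -
          2 * lf (Xm (act (altp cs t s m) z : DD)) (ev t) * -kp) +
        y * (lf (Xm (act (altp cs t s m) z : DD)) (ev t) -
          2 * lf (Xm (act (altp cs t s m) z : DD)) (ev t) * 1) =
        (2 * kp * x - y) * lf (Xm (act (altp cs t s m) z : DD)) (ev t) +
          x * lf (Xm (act (altp cs t s m) z : DD)) (ev s) := by ring
    rw [e]
    exact h2

/-- The orthogonal case. -/
private theorem two_case (z : DD) (s t : Fin 4) (hst : lf (ev s) (ev t) = 0) (m : ℕ)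
    (hm : m < 2) (hs : 0 < lf (Xm z) (ev s)) :
    0 < lf (Xm (act (altp cs s t m) z : DD)) (ev s) := by
  have hts : lf (ev t) (ev s) = 0 := by rw [lf_comm]; exact hst
  interval_cases m
  · rw [base]; exact hs
  · rw [step, base, lf_rf, hts, mul_zero, sub_zero]; exact hs

/-- The case of order four. -/
private theorem four_case (z : DD) (s t : Fin 4) (hst : lf (ev s) (ev t) = -sg ^ 2) (m : ℕ)
    (hm : m < 4) (hs : 0 < lf (Xm z) (ev s)) (ht : 0 < lf (Xm z) (ev t)) :
    0 < lf (Xm (act (altp cs s t m) z : DD)) (ev s) := by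
  have hts : lf (ev t) (ev s) = -sg ^ 2 := by rw [lf_comm]; exact hst
  have h4 := sg_four
  have hg : 0 < sg ^ 2 := by have := sg_pos; positivity
  have hp : 0 < sg ^ 2 * lf (Xm z) (ev t) := mul_pos hg ht
  interval_cases m
  · rw [base]; exact hs
  · rw [step, base, lf_rf, hts]
    linarith
  · have e : lf (Xm (act (altp cs s t 2) z : DD)) (ev s) =
        lf (Xm z) (ev s) + 2 * (sg ^ 2 * lf (Xm z) (ev t)) +
          (4 * sg ^ 4 - 2) * lf (Xm z) (ev s) := by
      rw [step, step, base]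
      simp only [lf_rf, hts, hst, lf_ev_self]
      ring
    rw [e, h4]
    linarith
  · have e : lf (Xm (act (altp cs s t 3) z : DD)) (ev s) =
        lf (Xm z) (ev s) + (4 * sg ^ 4 - 2) * (lf (Xm z) (ev s) +
          2 * sg ^ 2 * lf (Xm z) (ev t)) := by
      rw [step, step, step, base]
      simp only [lf_rf, hts, hst, lf_ev_self]
      ring
    rw [e, h4]
    linarith

/-- DIH. -/
theorem cDIH : St_DIH := by
  intro s t hst m hm z hs ht
  have key : (cm s t = 0 ∧ lf (ev s) (ev t) = -kp) ∨ (cm s t = 2 ∧ lf (ev s) (ev t) = 0) ∨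
      (cm s t = 4 ∧ lf (ev s) (ev t) = -sg ^ 2) := by
    fin_cases s <;> fin_cases t
    · exact absurd rfl hst
    · exact Or.inl ⟨rfl, ev01⟩
    · exact Or.inr (Or.inl ⟨rfl, ev02⟩)
    · exact Or.inr (Or.inl ⟨rfl, ev03⟩)
    · exact Or.inl ⟨rfl, (lf_comm _ _).trans ev01⟩
    · exact absurd rfl hst
    · exact Or.inr (Or.inl ⟨rfl, ev12⟩)
    · exact Or.inr (Or.inr ⟨rfl, ev13⟩)
    · exact Or.inr (Or.inl ⟨rfl, (lf_comm _ _).trans ev02⟩)
    · exact Or.inr (Or.inl ⟨rfl, (lf_comm _ _).trans ev12⟩)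
    · exact absurd rfl hst
    · exact Or.inl ⟨rfl, ev23⟩
    · exact Or.inr (Or.inl ⟨rfl, (lf_comm _ _).trans ev03⟩)
    · exact Or.inr (Or.inr ⟨rfl, (lf_comm _ _).trans ev13⟩)
    · exact Or.inl ⟨rfl, (lf_comm _ _).trans ev23⟩
    · exact absurd rfl hst
  rcases key with ⟨_, hg⟩ | ⟨hc, hg⟩ | ⟨hc, hg⟩
  · have h := inf_case z m s t hg hs ht 1 0 one_pos le_rfl zero_le_one
    linarith
  · rw [hc] at hm
    exact two_case z s t hg m (by omega) hs
  · rw [hc] at hm
    exact four_case z s t hg m (by omega) hs ht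

end Pool.Agent.Helper74.QG
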